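import Mathlib
import Pool.Agent.Convex97.NeighborlyCore

set_option autoImplicit false

namespace Pool.Agent.Results.MP_aae461_co.ExactHellyNumber

open Module Finset Pool.Agent.Convex97

/-- `A` is `k`-almost-neighborly (boundary in `ℝ^d`): the convex hull of every subset of `A` with
exactly `k` elements lies in the boundary of the convex hull of `A`. -/
def AlmostNeighborly {d : ℕ} (k : ℕ) (A : Finset (EuclideanSpace ℝ (Fin d))) : Prop :=
  ∀ B ⊆ A, B.card = k →
    convexHull ℝ (B : Set (EuclideanSpace ℝ (Fin d))) ⊆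
      frontier (convexHull ℝ (A : Set (EuclideanSpace ℝ (Fin d))))

/-- The same with the relative boundary: the convex hull of every subset of `A` with exactly `k`
elements lies in the relative boundary of the convex hull of `A` (its boundary inside its affine
hull). -/
def RelAlmostNeighborly {d : ℕ} (k : ℕ) (A : Finset (EuclideanSpace ℝ (Fin d))) : Prop :=
  ∀ B ⊆ A, B.card = k →
    convexHull ℝ (B : Set (EuclideanSpace ℝ (Fin d))) ⊆
      intrinsicFrontier ℝ (convexHull ℝ (A : Set (EuclideanSpace ℝ (Fin d))))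

section aux

variable {d : ℕ}

lemma almostNeighborly_iff (k : ℕ) (A : Finset (EuclideanSpace ℝ (Fin d))) :
    AlmostNeighborly k A ↔ ∀ B ⊆ A, B.card = k →
      ∀ x ∈ convexHull ℝ (B : Set (EuclideanSpace ℝ (Fin d))),
        x ∉ interior (convexHull ℝ (A : Set (EuclideanSpace ℝ (Fin d)))) := by
  have hcl : IsClosed (convexHull ℝ (A : Set (EuclideanSpace ℝ (Fin d)))) :=
    (A.finite_toSet.isCompact_convexHull ℝ).isClosed
  unfold AlmostNeighborly
  rw [hcl.frontier_eq]
  constructor
  · intro h B hB hk x hx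
    exact (h B hB hk hx).2
  · intro h B hB hk x hx
    exact ⟨convexHull_mono (by exact_mod_cast hB) hx, h B hB hk x hx⟩

lemma relAlmostNeighborly_iff (k : ℕ) (A : Finset (EuclideanSpace ℝ (Fin d))) :
    RelAlmostNeighborly k A ↔ ∀ B ⊆ A, B.card = k →
      ∀ x ∈ convexHull ℝ (B : Set (EuclideanSpace ℝ (Fin d))),
        x ∉ intrinsicInterior ℝ (convexHull ℝ (A : Set (EuclideanSpace ℝ (Fin d)))) := by
  have hcl : IsClosed (convexHull ℝ (A : Set (EuclideanSpace ℝ (Fin d)))) :=
    (A.finite_toSet.isCompact_convexHull ℝ).isClosed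
  unfold RelAlmostNeighborly
  rw [← intrinsicClosure_sdiff_intrinsicInterior, intrinsicClosure_eq_closure, hcl.closure_eq]
  constructor
  · intro h B hB hk x hx
    exact (h B hB hk hx).2
  · intro h B hB hk x hx
    exact ⟨convexHull_mono (by exact_mod_cast hB) hx, h B hB hk x hx⟩

lemma upper (k : ℕ) (hk : 1 ≤ k) (h : ℕ) (hh : max k (2 * d + 2 - k) ≤ h)
    (A : Finset (EuclideanSpace ℝ (Fin d))) :
    AlmostNeighborly k A ↔ ∀ B ⊆ A, B.card ≤ h → AlmostNeighborly k B := by
  constructor
  · intro hA A' hA' _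
    rw [almostNeighborly_iff] at hA ⊢
    intro B hB hBk x hx hint
    exact hA B (hB.trans hA') hBk x hx
      (interior_mono (convexHull_mono (by exact_mod_cast hA')) hint)
  · intro hA
    rw [almostNeighborly_iff]
    intro B hB hBk x hx hint
    obtain ⟨A', hA', hcard, B', hB', hB'k, y, hy, hyint⟩ :=
      neighborly_core A B k hk hB hBk x hx hint
    rw [finrank_euclideanSpace_fin] at hcard
    exact (almostNeighborly_iff k A').mp (hA A' hA' (hcard.trans hh)) B' hB' hB'k y hy hyint

/-! ### Sharpness -/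

/-- the standard basis vectors -/
noncomputable def e (i : Fin d) : EuclideanSpace ℝ (Fin d) := EuclideanSpace.single i (1 : ℝ)

lemma e_apply (i j : Fin d) : (e i : EuclideanSpace ℝ (Fin d)) j = if j = i then 1 else 0 := by
  simp [e]

/-- coordinate functionals -/
noncomputable def co (i : Fin d) : EuclideanSpace ℝ (Fin d) →ₗ[ℝ] ℝ :=
  (EuclideanSpace.proj i : EuclideanSpace ℝ (Fin d) →L[ℝ] ℝ).toLinearMap

lemma co_apply (i : Fin d) (x : EuclideanSpace ℝ (Fin d)) : co i x = x i := rfl

lemma e_ne_zero (i : Fin d) : (e i : EuclideanSpace ℝ (Fin d)) ≠ 0 := by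
  intro h
  have := congrArg (fun x : EuclideanSpace ℝ (Fin d) => x i) h
  simp [e_apply] at this

lemma e_injective : Function.Injective (e : Fin d → EuclideanSpace ℝ (Fin d)) := by
  intro i j h
  by_contra hij
  have := congrArg (fun x : EuclideanSpace ℝ (Fin d) => x i) h
  simp [e_apply, hij] at this

lemma e_ne_neg (i j : Fin d) : (e i : EuclideanSpace ℝ (Fin d)) ≠ - e j := by
  intro h
  have := congrArg (fun x : EuclideanSpace ℝ (Fin d) => x i) h
  simp only [e_apply, PiLp.neg_apply, if_true] at this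
  split_ifs at this <;> norm_num at this

lemma sum_co_e (x : EuclideanSpace ℝ (Fin d)) : x = ∑ i, x i • e i := by
  ext j
  simp [e_apply]

lemma lin_ext (f : EuclideanSpace ℝ (Fin d) →ₗ[ℝ] ℝ) (hf : ∀ i, f (e i) = 0) : f = 0 := by
  ext x
  rw [sum_co_e x, map_sum]
  simp [hf]

/-- The extremal configuration: the origin, all `e i`, and `-e i` for `i ∉ J`. -/
noncomputable def conf (J : Finset (Fin d)) : Finset (EuclideanSpace ℝ (Fin d)) :=
  insert 0 (univ.image e ∪ (univ \ J).image (fun i => - e i))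

lemma mem_conf (J : Finset (Fin d)) (a : EuclideanSpace ℝ (Fin d)) :
    a ∈ conf J ↔ a = 0 ∨ (∃ i, a = e i) ∨ (∃ i, i ∉ J ∧ a = - e i) := by
  simp only [conf, mem_insert, mem_union, mem_image, mem_univ, true_and, mem_sdiff]
  constructor
  · rintro (h | ⟨i, hi⟩ | ⟨i, hi, hi2⟩)
    · exact Or.inl h
    · exact Or.inr (Or.inl ⟨i, hi.symm⟩)
    · exact Or.inr (Or.inr ⟨i, hi, hi2.symm⟩)
  · rintro (h | ⟨i, hi⟩ | ⟨i, hi, hi2⟩)
    · exact Or.inl h
    · exact Or.inr (Or.inl ⟨i, hi.symm⟩)
    · exact Or.inr (Or.inr ⟨i, hi, hi2.symm⟩)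

lemma card_conf (J : Finset (Fin d)) : (conf J).card = 1 + (d + (d - J.card)) := by
  unfold conf
  rw [card_insert_of_notMem, card_union_of_disjoint, card_image_of_injective _ e_injective,
    card_image_of_injective, card_univ, Fintype.card_fin, card_sdiff_of_subset (subset_univ _),
    card_univ, Fintype.card_fin, add_comm]
  · intro i j h
    exact e_injective (neg_injective h)
  · rw [Finset.disjoint_left]
    intro x hx hx2
    obtain ⟨i, _, rfl⟩ := mem_image.mp hx
    obtain ⟨j, _, hj⟩ := mem_image.mp hx2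
    exact e_ne_neg i j hj.symm
  · simp only [mem_union, mem_image, mem_univ, true_and, mem_sdiff, not_or, not_exists, not_and]
    refine ⟨fun i => e_ne_zero i, fun i _ h => e_ne_zero i (neg_eq_zero.mp h)⟩

lemma conf_nonneg (J : Finset (Fin d)) (j : Fin d) (hj : j ∈ J) (a : EuclideanSpace ℝ (Fin d))
    (ha : a ∈ conf J) : 0 ≤ a j := by
  rcases (mem_conf J a).mp ha with rfl | ⟨i, rfl⟩ | ⟨i, hi, rfl⟩
  · simp
  · rw [e_apply]; split_ifs <;> norm_num
  · have : j ≠ i := fun h => hi (h ▸ hj)
    simp [e_apply, this]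

lemma conf_not (J : Finset (Fin d)) (k : ℕ) (hJ : J.card + 1 = k) :
    ¬ AlmostNeighborly k (conf J) := by
  rw [almostNeighborly_iff]
  push Not
  have hkpos : (0 : ℝ) < k := by
    have : 0 < k := by omega
    exact_mod_cast this
  have hkne : (k : ℝ) ≠ 0 := hkpos.ne'
  have h0J : (0 : EuclideanSpace ℝ (Fin d)) ∉ J.image e := by
    simp only [mem_image, not_exists, not_and]
    exact fun i _ => e_ne_zero i
  refine ⟨insert 0 (J.image e), ?_, ?_, (1 / (k : ℝ)) • ∑ j ∈ J, e j, ?_, ?_⟩
  · intro x hx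
    rw [mem_conf]
    rcases mem_insert.mp hx with h | h
    · exact Or.inl h
    · obtain ⟨i, _, rfl⟩ := mem_image.mp h
      exact Or.inr (Or.inl ⟨i, rfl⟩)
  · rw [card_insert_of_notMem h0J, card_image_of_injective _ e_injective, hJ]
  · rw [Finset.mem_convexHull']
    refine ⟨fun _ => 1 / (k : ℝ), fun _ _ => by positivity, ?_, ?_⟩
    · rw [sum_const, card_insert_of_notMem h0J, card_image_of_injective _ e_injective, hJ,
        nsmul_eq_mul]
      field_simp
    · rw [sum_insert h0J, sum_image (fun i _ j _ h => e_injective h), smul_zero, zero_add,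
        smul_sum]
  · rw [mem_interior_convexHull_iff _ ⟨0, (mem_conf J 0).mpr (Or.inl rfl)⟩]
    intro f hf
    by_contra hcon
    push Not at hcon
    apply hf
    set y := (1 / (k : ℝ)) • ∑ j ∈ J, (e j : EuclideanSpace ℝ (Fin d)) with hy
    have hfy : f y = (1 / (k : ℝ)) * ∑ j ∈ J, f (e j) := by
      rw [hy, map_smul, map_sum, smul_eq_mul]
    have h0 : 0 ≤ f y := by
      have := hcon 0 ((mem_conf J 0).mpr (Or.inl rfl))
      rwa [map_zero] at this
    have hj : ∀ j, f (e j) ≤ f y := fun j => hcon _ ((mem_conf J _).mpr (Or.inr (Or.inl ⟨j, rfl⟩)))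
    have hsum : ∑ j ∈ J, f (e j) ≤ J.card * f y := by
      have := Finset.sum_le_card_nsmul J (fun j => f (e j)) (f y) (fun j _ => hj j)
      rwa [nsmul_eq_mul] at this
    have hky : (k : ℝ) * f y = ∑ j ∈ J, f (e j) := by
      rw [hfy]; field_simp
    have hkJ : (k : ℝ) = J.card + 1 := by
      rw [← hJ]; push_cast; ring
    have hy0 : f y = 0 := by
      apply le_antisymm _ h0
      rw [← hky, hkJ] at hsum
      linarith
    have hJ0 : ∀ j ∈ J, f (e j) = 0 := by
      have hs0 : ∑ j ∈ J, f (e j) = 0 := by rw [← hky, hy0, mul_zero]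
      intro j hjJ
      have hle : ∀ j ∈ J, f (e j) ≤ 0 := fun j _ => by have := hj j; rwa [hy0] at this
      exact (Finset.sum_eq_zero_iff_of_nonpos hle).mp hs0 j hjJ
    apply lin_ext
    intro i
    by_cases hi : i ∈ J
    · exact hJ0 i hi
    · have h1 := hj i
      have h2 := hcon _ ((mem_conf J _).mpr (Or.inr (Or.inr ⟨i, hi, rfl⟩)))
      rw [map_neg] at h2
      rw [hy0] at h1 h2
      linarith

lemma hull_lin_eq (B : Finset (EuclideanSpace ℝ (Fin d))) (f : EuclideanSpace ℝ (Fin d) →ₗ[ℝ] ℝ)
    (c : ℝ) (hf : ∀ b ∈ B, f b = c) (y : EuclideanSpace ℝ (Fin d))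
    (hy : y ∈ convexHull ℝ (B : Set (EuclideanSpace ℝ (Fin d)))) : f y = c := by
  have hsub : convexHull ℝ (B : Set (EuclideanSpace ℝ (Fin d))) ⊆ {y | f y = c} := by
    apply convexHull_min
    · intro b hb; exact hf b hb
    · exact convex_hyperplane f.isLinear c
  exact hsub hy

lemma conf_sub (J : Finset (Fin d)) (k : ℕ) (hJ : J.card + 1 = k)
    (A' : Finset (EuclideanSpace ℝ (Fin d))) (hA' : A' ⊆ conf J) (hne : A' ≠ conf J) :
    AlmostNeighborly k A' := by
  rw [almostNeighborly_iff]
  intro B hB hBk y hy hyint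
  have hBne : B.Nonempty := by rw [← card_pos]; omega
  have hA'ne : A'.Nonempty := hBne.mono hB
  rw [mem_interior_convexHull_iff A' hA'ne] at hyint
  -- coordinates in J are positive
  have hypos : ∀ j ∈ J, 0 < y j := by
    intro j hj
    have hco : -(co j : EuclideanSpace ℝ (Fin d) →ₗ[ℝ] ℝ) ≠ 0 := by
      intro h
      have := congrArg (fun g : EuclideanSpace ℝ (Fin d) →ₗ[ℝ] ℝ => g (e j)) h
      simp [co_apply, e_apply] at this
    obtain ⟨a, ha, hlt⟩ := hyint _ hco
    simp only [LinearMap.neg_apply, co_apply] at hlt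
    have := conf_nonneg J j hj a (hA' ha)
    linarith
  have heB : ∀ j ∈ J, e j ∈ B := by
    intro j hj
    by_contra hcon
    have h0 : co j y = 0 := by
      apply hull_lin_eq B (co j) 0 _ y hy
      intro b hb
      rw [co_apply]
      rcases (mem_conf J b).mp (hA' (hB hb)) with rfl | ⟨i, rfl⟩ | ⟨i, hi, rfl⟩
      · simp
      · have : j ≠ i := by rintro rfl; exact hcon hb
        simp [e_apply, this]
      · have : j ≠ i := fun h => hi (h ▸ hj)
        simp [e_apply, this]
    have := hypos j hj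
    rw [co_apply] at h0
    linarith
  have hJB : J.image e ⊆ B := by
    intro x hx
    obtain ⟨j, hj, rfl⟩ := mem_image.mp hx
    exact heB j hj
  have hcardJ : (J.image (e : Fin d → EuclideanSpace ℝ (Fin d))).card = J.card :=
    card_image_of_injective _ e_injective
  obtain ⟨b, hb⟩ : ∃ b, B \ J.image e = {b} := by
    rw [← card_eq_one, card_sdiff_of_subset hJB, hcardJ]
    omega
  have hbB : b ∈ B ∧ b ∉ J.image e := by
    rw [← mem_sdiff, hb]; exact mem_singleton_self b
  have hBform : ∀ x ∈ B, x = b ∨ ∃ j ∈ J, x = e j := by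
    intro x hx
    by_cases hxJ : x ∈ J.image e
    · obtain ⟨j, hj, rfl⟩ := mem_image.mp hxJ
      exact Or.inr ⟨j, hj, rfl⟩
    · left
      have : x ∈ B \ J.image e := mem_sdiff.mpr ⟨hx, hxJ⟩
      rw [hb] at this
      exact mem_singleton.mp this
  -- the case of a nonzero extra point
  have hcase : ∀ (σ : ℝ) (i : Fin d), i ∉ J → (σ = 1 ∨ σ = -1) → b = σ • e i → False := by
    intro σ i hi hσ hbi
    set f : EuclideanSpace ℝ (Fin d) →ₗ[ℝ] ℝ := ∑ j ∈ J, co j + σ • co i with hf
    have hfx : ∀ x, f x = ∑ j ∈ J, x j + σ * x i := by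
      intro x
      simp [hf, co_apply]
    have hσσ : σ * σ = 1 := by rcases hσ with rfl | rfl <;> norm_num
    have hfe : ∀ j, f (e j) = (if j ∈ J then 1 else 0) + σ * (if i = j then 1 else 0) := by
      intro j
      rw [hfx]
      simp [e_apply]
    have hfb : f b = 1 := by
      rw [hbi, map_smul, hfe]
      simp [hi, hσσ]
    have hfB : ∀ x ∈ B, f x = 1 := by
      intro x hx
      rcases hBform x hx with rfl | ⟨j, hj, rfl⟩
      · exact hfb
      · rw [hfe]
        have : i ≠ j := by rintro rfl; exact hi hj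
        simp [hj, this]
    have hfy : f y = 1 := hull_lin_eq B f 1 hfB y hy
    have hfne : f ≠ 0 := by
      intro h; rw [h] at hfb; simp at hfb
    obtain ⟨a, ha, hlt⟩ := hyint f hfne
    have hfa : f a ≤ 1 := by
      rcases (mem_conf J a).mp (hA' ha) with rfl | ⟨l, rfl⟩ | ⟨l, hl, rfl⟩
      · simp
      · rw [hfe]
        by_cases hl : l ∈ J
        · have : i ≠ l := by rintro rfl; exact hi hl
          simp [hl, this]
        · rcases hσ with rfl | rfl <;> simp only [hl, if_false] <;> split_ifs <;> norm_num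
      · rw [map_neg, hfe]
        rcases hσ with rfl | rfl <;> simp only [hl, if_false] <;> split_ifs <;> norm_num
    rw [hfy] at hlt
    linarith
  rcases (mem_conf J b).mp (hA' (hB hbB.1)) with hb0 | ⟨i, hbi⟩ | ⟨i, hi, hbi⟩
  · -- b = 0
    obtain ⟨a0, ha0, ha0'⟩ : ∃ a0 ∈ conf J, a0 ∉ A' := by
      by_contra hcon
      push Not at hcon
      exact hne (Subset.antisymm hA' hcon)
    have hyi : ∀ i, i ∉ J → y i = 0 := by
      intro i hi
      have : co i y = 0 := by
        apply hull_lin_eq B (co i) 0 _ y hy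
        intro x hx
        rw [co_apply]
        rcases hBform x hx with rfl | ⟨j, hj, rfl⟩
        · rw [hb0]; simp
        · have : i ≠ j := by rintro rfl; exact hi hj
          simp [e_apply, this]
      exact this
    rcases (mem_conf J a0).mp ha0 with h | ⟨i, h⟩ | ⟨i, hi, h⟩
    · rw [h, ← hb0] at ha0'
      exact ha0' (hB hbB.1)
    · by_cases hi : i ∈ J
      · rw [h] at ha0'
        exact ha0' (hB (heB i hi))
      · have hco : (co i : EuclideanSpace ℝ (Fin d) →ₗ[ℝ] ℝ) ≠ 0 := by
          intro h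
          have := congrArg (fun g : EuclideanSpace ℝ (Fin d) →ₗ[ℝ] ℝ => g (e i)) h
          simp [co_apply, e_apply] at this
        obtain ⟨a, ha, hlt⟩ := hyint _ hco
        rw [co_apply, co_apply, hyi i hi] at hlt
        rcases (mem_conf J a).mp (hA' ha) with rfl | ⟨l, rfl⟩ | ⟨l, hl, rfl⟩
        · simp at hlt
        · by_cases hil : i = l
          · rw [← hil, ← h] at ha; exact ha0' ha
          · simp [e_apply, hil] at hlt
        · simp only [PiLp.neg_apply, e_apply] at hlt
          split_ifs at hlt <;> norm_num at hlt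
    · have hco : -(co i : EuclideanSpace ℝ (Fin d) →ₗ[ℝ] ℝ) ≠ 0 := by
        intro h
        have := congrArg (fun g : EuclideanSpace ℝ (Fin d) →ₗ[ℝ] ℝ => g (e i)) h
        simp [co_apply, e_apply] at this
      obtain ⟨a, ha, hlt⟩ := hyint _ hco
      simp only [LinearMap.neg_apply, co_apply, hyi i hi, neg_zero] at hlt
      rcases (mem_conf J a).mp (hA' ha) with rfl | ⟨l, rfl⟩ | ⟨l, hl, rfl⟩
      · simp at hlt
      · rw [e_apply] at hlt
        split_ifs at hlt <;> norm_num at hlt
      · by_cases hil : i = l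
        · rw [← hil, ← h] at ha; exact ha0' ha
        · simp [e_apply, hil] at hlt
  · have hi : i ∉ J := by
      intro hi
      apply hbB.2
      rw [hbi]
      exact mem_image_of_mem _ hi
    exact hcase 1 i hi (Or.inl rfl) (by rw [one_smul]; exact hbi)
  · exact hcase (-1) i hi (Or.inr rfl) (by rw [neg_smul, one_smul]; exact hbi)

lemma lower (hd : 1 ≤ d) (k : ℕ) (hk : 1 ≤ k) (h : ℕ)
    (hh : ∀ A : Finset (EuclideanSpace ℝ (Fin d)),
      AlmostNeighborly k A ↔ ∀ B ⊆ A, B.card ≤ h → AlmostNeighborly k B) :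
    max k (2 * d + 2 - k) ≤ h := by
  by_contra hcon
  push Not at hcon
  rcases le_or_gt k (d + 1) with hkd | hkd
  · obtain ⟨J, -, hJ⟩ := Finset.exists_subset_card_eq
      (s := (univ : Finset (Fin d))) (n := k - 1) (by rw [card_univ, Fintype.card_fin]; omega)
    have hJk : J.card + 1 = k := by omega
    apply conf_not J k hJk
    rw [hh]
    intro B hB hBh
    apply conf_sub J k hJk B hB
    intro hEq
    have h1 := card_conf J
    rw [← hEq] at h1
    have h2 : max k (2 * d + 2 - k) = 2 * d + 2 - k := by omega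
    omega
  · have hmax : max k (2 * d + 2 - k) = k := by omega
    rw [hmax] at hcon
    have hinf : Infinite (EuclideanSpace ℝ (Fin d)) := by
      apply Infinite.of_injective (fun t : ℝ => t • (e ⟨0, hd⟩ : EuclideanSpace ℝ (Fin d)))
      intro s t hst
      have := congrArg (fun x : EuclideanSpace ℝ (Fin d) => x ⟨0, hd⟩) hst
      simpa [e_apply] using this
    obtain ⟨A, hA, hAk⟩ := Infinite.exists_superset_card_eq
      (conf (univ : Finset (Fin d))) k (by rw [card_conf]; simp; omega)
    have hAspan : affineSpan ℝ (A : Set (EuclideanSpace ℝ (Fin d))) = ⊤ := by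
      have h0 : (0 : EuclideanSpace ℝ (Fin d)) ∈ A := hA ((mem_conf _ 0).mpr (Or.inl rfl))
      rw [AffineSubspace.affineSpan_eq_top_iff_vectorSpan_eq_top_of_nonempty ℝ _ _ ⟨0, h0⟩]
      rw [eq_top_iff]
      intro x _
      rw [sum_co_e x]
      apply Submodule.sum_mem
      intro i _
      apply Submodule.smul_mem
      have h1 : e i ∈ A := hA ((mem_conf _ _).mpr (Or.inr (Or.inl ⟨i, rfl⟩)))
      have h2 := vsub_mem_vectorSpan ℝ (s := (A : Set (EuclideanSpace ℝ (Fin d)))) h1 h0
      simpa using h2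
    obtain ⟨y, hy⟩ := interior_convexHull_nonempty_iff_affineSpan_eq_top.mpr hAspan
    have hnot : ¬ AlmostNeighborly k A := by
      rw [almostNeighborly_iff]
      intro hall
      exact hall A Subset.rfl hAk y (interior_subset hy) hy
    apply hnot
    rw [hh]
    intro B _ hBh B' hB' hB'k
    have := card_le_card hB'
    omega

/-! ### The relative version -/

lemma intrinsicInterior_eq_of_span_eq_top {W : Type} [NormedAddCommGroup W] [NormedSpace ℝ W]
    (s : Set W) (hs : affineSpan ℝ s = ⊤) : intrinsicInterior ℝ s = interior s := by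
  apply Set.Subset.antisymm
  · apply interior_maximal
    · exact intrinsicInterior_subset
    · unfold intrinsicInterior
      have hopen : IsOpen ((affineSpan ℝ s : AffineSubspace ℝ W) : Set W) := by
        rw [hs]; exact isOpen_univ
      exact hopen.isOpenMap_subtype_val _ isOpen_interior
  · exact interior_subset_intrinsicInterior

lemma intrinsic_of_embedding {W : Type} [NormedAddCommGroup W] [NormedSpace ℝ W]
    (φ : W →ᵃⁱ[ℝ] EuclideanSpace ℝ (Fin d)) (X : Finset W)
    (hX : affineSpan ℝ (X : Set W) = ⊤) [DecidableEq (EuclideanSpace ℝ (Fin d))] (w : W) :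
    φ w ∈ intrinsicInterior ℝ (convexHull ℝ ((X.image φ : Finset (EuclideanSpace ℝ (Fin d))) :
      Set (EuclideanSpace ℝ (Fin d)))) ↔ w ∈ interior (convexHull ℝ (X : Set W)) := by
  have h1 : convexHull ℝ ((X.image φ : Finset (EuclideanSpace ℝ (Fin d))) :
      Set (EuclideanSpace ℝ (Fin d))) = φ '' convexHull ℝ (X : Set W) := by
    rw [Finset.coe_image]
    exact (φ.toAffineMap.image_convexHull (X : Set W)).symm
  rw [h1, AffineIsometry.intrinsicInterior_image, intrinsicInterior_eq_of_span_eq_top]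
  · constructor
    · rintro ⟨w', hw', h⟩
      rwa [← φ.injective h]
    · intro hw
      exact ⟨w, hw, rfl⟩
  · rw [affineSpan_convexHull]; exact hX

lemma relative (k : ℕ) (hk : 1 ≤ k) (A : Finset (EuclideanSpace ℝ (Fin d))) :
    RelAlmostNeighborly k A ↔ ∀ B ⊆ A,
      affineSpan ℝ (B : Set (EuclideanSpace ℝ (Fin d))) =
        affineSpan ℝ (A : Set (EuclideanSpace ℝ (Fin d))) →
      B.card ≤ max k (2 * finrank ℝ (vectorSpan ℝ (A : Set (EuclideanSpace ℝ (Fin d)))) + 2 - k) →
      RelAlmostNeighborly k B := by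
  classical
  rcases A.eq_empty_or_nonempty with rfl | ⟨a0, ha0⟩
  · constructor
    · intro h B hB _ _
      rw [subset_empty] at hB
      rw [hB]; exact h
    · intro h
      exact h ∅ Subset.rfl rfl (by simp)
  set S := affineSpan ℝ (A : Set (EuclideanSpace ℝ (Fin d))) with hS
  have ha0S : a0 ∈ S := subset_affineSpan ℝ _ ha0
  have hSne : Nonempty S := ⟨⟨a0, ha0S⟩⟩
  let W := S.direction
  let φ : W →ᵃⁱ[ℝ] EuclideanSpace ℝ (Fin d) :=
    S.subtypeₐᵢ.comp (AffineIsometryEquiv.vaddConst ℝ (⟨a0, ha0S⟩ : S)).toAffineIsometry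
  have hφinj : Function.Injective φ := φ.injective
  have hrange : Set.range φ = (S : Set (EuclideanSpace ℝ (Fin d))) := by
    ext x
    constructor
    · rintro ⟨w, rfl⟩
      exact (((AffineIsometryEquiv.vaddConst ℝ (⟨a0, ha0S⟩ : S)) w)).2
    · intro hx
      refine ⟨(AffineIsometryEquiv.vaddConst ℝ (⟨a0, ha0S⟩ : S)).symm ⟨x, hx⟩, ?_⟩
      change (((AffineIsometryEquiv.vaddConst ℝ (⟨a0, ha0S⟩ : S))
        ((AffineIsometryEquiv.vaddConst ℝ (⟨a0, ha0S⟩ : S)).symm ⟨x, hx⟩) : S) :
          EuclideanSpace ℝ (Fin d)) = x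
      rw [AffineIsometryEquiv.apply_symm_apply]
  -- pull back finsets
  have hpull : ∀ B ⊆ A, (B.preimage φ hφinj.injOn).image φ = B := by
    intro B hB
    rw [Finset.image_preimage, Finset.filter_true_of_mem]
    intro x hx
    rw [hrange]
    exact subset_affineSpan ℝ _ (hB hx)
  have hspan : ∀ X : Finset W,
      affineSpan ℝ ((X.image φ : Finset (EuclideanSpace ℝ (Fin d))) :
        Set (EuclideanSpace ℝ (Fin d))) = S ↔ affineSpan ℝ (X : Set W) = ⊤ := by
    intro X
    have h1 : affineSpan ℝ ((X.image φ : Finset (EuclideanSpace ℝ (Fin d))) :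
        Set (EuclideanSpace ℝ (Fin d))) = (affineSpan ℝ (X : Set W)).map φ.toAffineMap := by
      rw [AffineSubspace.map_span, Finset.coe_image]
      rfl
    have h2 : S = (⊤ : AffineSubspace ℝ W).map φ.toAffineMap := by
      apply SetLike.coe_injective
      rw [AffineSubspace.coe_map, AffineSubspace.top_coe, Set.image_univ, ← hrange]
      rfl
    rw [h1]
    constructor
    · intro h
      rw [h2] at h
      have h3 := congrArg (AffineSubspace.comap φ.toAffineMap) h
      rwa [AffineSubspace.comap_map_eq_of_injective hφinj,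
        AffineSubspace.comap_map_eq_of_injective hφinj] at h3
    · intro h
      rw [h, ← h2]
  have hdim : finrank ℝ W = finrank ℝ (vectorSpan ℝ (A : Set (EuclideanSpace ℝ (Fin d)))) := by
    have : W = vectorSpan ℝ (A : Set (EuclideanSpace ℝ (Fin d))) := by
      change S.direction = _
      rw [hS, direction_affineSpan]
    rw [this]
  set A1 := A.preimage φ hφinj.injOn with hA1
  have hA1A : A1.image φ = A := hpull A Subset.rfl
  have hA1top : affineSpan ℝ (A1 : Set W) = ⊤ := by
    rw [← hspan, hA1A]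
  constructor
  · -- heredity for spanning subsets
    intro hA B hB hBS _
    rw [relAlmostNeighborly_iff] at hA ⊢
    intro B' hB' hB'k x hx hint
    have hxS : x ∈ Set.range φ := by
      rw [hrange]
      have h1 : x ∈ convexHull ℝ (A : Set (EuclideanSpace ℝ (Fin d))) :=
        convexHull_mono (by exact_mod_cast hB'.trans hB) hx
      exact convexHull_subset_affineSpan _ h1
    obtain ⟨w, rfl⟩ := hxS
    apply hA B' (hB'.trans hB) hB'k _ hx
    have hBX := hpull B hB
    rw [← hBX] at hint hBS
    rw [intrinsic_of_embedding φ _ ((hspan _).mp hBS)] at hint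
    rw [← hA1A, intrinsic_of_embedding φ _ hA1top]
    refine interior_mono (convexHull_mono ?_) hint
    intro z hz
    rw [Finset.mem_coe, Finset.mem_preimage] at hz ⊢
    exact hB hz
  · intro hA
    rw [relAlmostNeighborly_iff]
    intro B hB hBk x hx hint
    have hxS : x ∈ Set.range φ := by
      rw [hrange]
      have h1 : x ∈ convexHull ℝ (A : Set (EuclideanSpace ℝ (Fin d))) :=
        convexHull_mono (by exact_mod_cast hB) hx
      exact convexHull_subset_affineSpan _ h1
    obtain ⟨w, rfl⟩ := hxS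
    have himg : ∀ (X : Finset W) (v : W),
        φ v ∈ convexHull ℝ ((X.image φ : Finset (EuclideanSpace ℝ (Fin d))) :
          Set (EuclideanSpace ℝ (Fin d))) ↔ v ∈ convexHull ℝ (X : Set W) := by
      intro X v
      have h1 : convexHull ℝ ((X.image φ : Finset (EuclideanSpace ℝ (Fin d))) :
          Set (EuclideanSpace ℝ (Fin d))) = φ '' convexHull ℝ (X : Set W) := by
        rw [Finset.coe_image]
        exact (φ.toAffineMap.image_convexHull (X : Set W)).symm
      rw [h1]
      constructor
      · rintro ⟨v', hv', h⟩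
        rwa [← hφinj h]
      · intro hv
        exact ⟨v, hv, rfl⟩
    set B1 := B.preimage φ hφinj.injOn with hB1
    have hB1B : B1.image φ = B := hpull B hB
    have hB1A1 : B1 ⊆ A1 := by
      intro z hz
      rw [Finset.mem_preimage] at hz ⊢
      exact hB hz
    have hB1k : B1.card = k := by
      rw [← hBk, ← hB1B, card_image_of_injective _ hφinj]
    rw [← hA1A, intrinsic_of_embedding φ _ hA1top] at hint
    rw [← hB1B, himg] at hx
    obtain ⟨A', hA', hcard, B', hB', hB'k, y, hy, hyint⟩ :=
      neighborly_core A1 B1 k hk hB1A1 hB1k w hx hint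
    have hA'top : affineSpan ℝ (A' : Set W) = ⊤ :=
      interior_convexHull_nonempty_iff_affineSpan_eq_top.mp ⟨y, hyint⟩
    have hA'img : A'.image φ ⊆ A := by
      rw [← hA1A]; exact image_subset_image hA'
    have h1 := hA (A'.image φ) hA'img ((hspan A').mpr hA'top)
      (by rw [card_image_of_injective _ hφinj, ← hdim]; exact hcard)
    rw [relAlmostNeighborly_iff] at h1
    apply h1 (B'.image φ) (image_subset_image hB')
      (by rw [card_image_of_injective _ hφinj, hB'k]) (φ y) ((himg B' y).mpr hy)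
    rw [intrinsic_of_embedding φ _ hA'top]
    exact hyint

end aux

/-- Q1 and more. For all `d, k ≥ 1`:

(1) (Q1, boundary taken in `ℝ^d`) if `k ≤ 2d+1`, a finite set `A ⊂ ℝ^d` is `k`-almost-neighborly
iff all its subsets with at most `2d+1` points are;

(2) the equivalence in (1) with `2d+1` replaced by a number `h` holds for all `A` exactly when
`h ≥ max(k, 2d+2-k)`: this is the exact Helly number;

(3) with the relative boundary instead, `A` is `k`-almost-neighborly iff all its subsets with the
same affine hull as `A` and at most `max(k, 2 dim A + 2 - k)` points are. -/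
theorem result (d k : ℕ) (hd : 1 ≤ d) (hk : 1 ≤ k) :
    (k ≤ 2 * d + 1 → ∀ A : Finset (EuclideanSpace ℝ (Fin d)),
      AlmostNeighborly k A ↔ ∀ B ⊆ A, B.card ≤ 2 * d + 1 → AlmostNeighborly k B) ∧
    (∀ h : ℕ, (∀ A : Finset (EuclideanSpace ℝ (Fin d)),
        AlmostNeighborly k A ↔ ∀ B ⊆ A, B.card ≤ h → AlmostNeighborly k B) ↔
      max k (2 * d + 2 - k) ≤ h) ∧
    (∀ A : Finset (EuclideanSpace ℝ (Fin d)),
      RelAlmostNeighborly k A ↔ ∀ B ⊆ A,
        affineSpan ℝ (B : Set (EuclideanSpace ℝ (Fin d))) =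
          affineSpan ℝ (A : Set (EuclideanSpace ℝ (Fin d))) →
        B.card ≤ max k (2 * finrank ℝ (vectorSpan ℝ (A : Set (EuclideanSpace ℝ (Fin d)))) + 2 - k) →
        RelAlmostNeighborly k B) := by
  refine ⟨fun hkd A => upper k hk _ (by omega) A, fun h => ⟨lower hd k hk h, fun hh A => ?_⟩,
    relative k hk⟩
  exact upper k hk h hh A

end Pool.Agent.Results.MP_aae461_co.ExactHellyNumber
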